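import Mathlib
import Pool.Agent.D0H11.GY.Stm
import Pool.Agent.D0H8.GM.One

/-! Project GY (helper11), module 3: the lower bound for one quadruple, general coefficients
(adaptation of `Pool.Agent.D0H8.GM.One`). -/

set_option autoImplicit false

namespace Pool.Agent.D0H87.GY

open Finset MeasureTheory Filter Topology
open Pool.Agent.D0H11.GM Pool.Agent.D0H11.GY
open Pool.Agent.H357R2.SI (pc pc_eq_sub)
open Pool.Agent.D0H8.GM (window slice)

/-- the lower bound for `l ≤ k` -/
theorem one_aux2 (a b r : ℝ) (hr : 0 < r) (ha : r < a) (hb : r < b) : ∀ᶠ M : ℕ in atTop, ∀ k l : ℝ, 0 < l → l ≤ k →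
    2 ^ M ≤ k → k ≤ 2 ^ (M + M / 2) → ENNReal.ofReal (1 / 2 * r ^ 2 / M) ≤
      volume {x : ℝ × ℝ | x ∈ Metric.closedBall (a, b) r ∧ (⌊x.1 * k + x.2 * l⌋₊ + 1).Prime} := by
  obtain ⟨K, hK⟩ : ∃ K : ℝ, K = a + b + 2 * r := ⟨_, rfl⟩
  have hK0 : 0 < K := by rw [hK]; linarith
  have hKr : 4 * r < K := by rw [hK]; linarith
  obtain ⟨X₀, hX₀⟩ := window (r / (2 * K)) ((a - r) / K) (by positivity) (div_pos (by linarith) hK0)
  have e0 : Tendsto (fun M : ℕ => (2 : ℝ) ^ M) atTop atTop := tendsto_pow_atTop_atTop_of_one_lt (by norm_num)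
  have e1 : ∀ᶠ M : ℕ in atTop, 2 * max X₀ 2 / r + 2 / r ≤ (2 : ℝ) ^ M := e0.eventually_ge_atTop _
  have e2 : ∀ᶠ M : ℕ in atTop, |Real.log K| * 4 ≤ (M : ℝ) := tendsto_natCast_atTop_atTop.eventually_ge_atTop _
  filter_upwards [e1, e2, eventually_ge_atTop 1] with M h1 h2 h3 k l hl0 hkv hk hku
  have hM : (1 : ℝ) ≤ M := by exact_mod_cast h3
  have hk0 : 0 < k := lt_of_lt_of_le (by positivity) hk
  have hX2 : 2 * max X₀ 2 / r + 2 / r ≤ k := h1.trans hk
  have hkr : 2 * max X₀ 2 + 2 ≤ r * k := by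
    have h4 : 2 * max X₀ 2 / r + 2 / r = (2 * max X₀ 2 + 2) / r := by ring
    rw [h4, div_le_iff₀ hr] at hX2
    linarith
  -- the number of primes
  have key : ∀ y ∈ Set.Icc (b - r) (b + r), r / (4 * M) ≤
      (pc ⌊(a - r) * k + y * l + 1⌋₊ ⌊(a + r) * k + y * l⌋₊ : ℝ) / k := by
    intro y hy
    obtain ⟨hy1, hy2⟩ := hy
    have hy0 : 0 < y := by linarith
    obtain ⟨x₁, hx₁⟩ : ∃ x : ℝ, x = (a - r) * k + y * l + 1 := ⟨_, rfl⟩
    obtain ⟨x₂, hx₂⟩ : ∃ x : ℝ, x = (a + r) * k + y * l := ⟨_, rfl⟩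
    rw [← hx₁, ← hx₂]
    have hyl : y * l ≤ (b + r) * k := by
      calc y * l ≤ y * k := mul_le_mul_of_nonneg_left hkv hy0.le
        _ ≤ _ := mul_le_mul_of_nonneg_right hy2 hk0.le
    have hyl0 : 0 < y * l := mul_pos hy0 hl0
    have hxK : x₂ ≤ K * k := by rw [hx₂, hK]; nlinarith
    have hm0 : X₀ ≤ max X₀ 2 := le_max_left _ _
    have hm1 : 2 ≤ max X₀ 2 := le_max_right _ _
    have hrk : r * k ≤ x₂ := by
      rw [hx₂]
      nlinarith
    have hxX : X₀ ≤ x₂ := by linarith
    have hx2 : 2 ≤ x₂ := by linarith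
    have h12 : (a - r) / K * x₂ ≤ x₁ := by
      rw [div_mul_eq_mul_div, div_le_iff₀ hK0]
      have h5 : (a - r) * x₂ ≤ (a - r) * (K * k) := mul_le_mul_of_nonneg_left hxK (by linarith)
      have h6 : (a - r) * k * K ≤ x₁ * K := by
        apply mul_le_mul_of_nonneg_right _ hK0.le
        rw [hx₁]; linarith
      nlinarith
    have h21 : x₁ ≤ x₂ := by rw [hx₁, hx₂]; nlinarith
    have h7 := hX₀ x₁ x₂ hxX h12 h21
    have hlx : 0 < Real.log x₂ := Real.log_pos (by linarith)
    have hlog : Real.log x₂ ≤ 4 * M := by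
      calc Real.log x₂ ≤ Real.log (K * k) := Real.log_le_log (by linarith) hxK
        _ ≤ Real.log K + ((M + M / 2 : ℕ) : ℝ) * Real.log 2 := by
            rw [Real.log_mul hK0.ne' hk0.ne', ← Real.log_pow]
            have := Real.log_le_log hk0 hku
            linarith
        _ ≤ M / 4 + (4 * M) * 0.7 := by
            have h8 : Real.log K ≤ M / 4 := by
              have := le_abs_self (Real.log K)
              linarith
            have h9 : Real.log 2 ≤ 0.7 := by
              have := Real.log_two_lt_d9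
              linarith
            have h10 : ((M + M / 2 : ℕ) : ℝ) ≤ 4 * M := by
              have : M + M / 2 ≤ 4 * M := by omega
              exact_mod_cast this
            have h11 : 0 ≤ Real.log 2 := Real.log_nonneg (by norm_num)
            have h12 : ((M + M / 2 : ℕ) : ℝ) * Real.log 2 ≤ (4 * M) * 0.7 := by
              apply mul_le_mul h10 h9 h11 (by positivity)
            linarith
        _ ≤ 4 * M := by linarith
    have hnum : r * k ≤ x₂ - x₁ - r / (2 * K) * x₂ := by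
      have h8 : r / (2 * K) * x₂ ≤ r / (2 * K) * (K * k) := mul_le_mul_of_nonneg_left hxK (by positivity)
      have h9 : r / (2 * K) * (K * k) = r * k / 2 := by field_simp
      have h10 : x₂ - x₁ = 2 * (r * k) - 1 := by rw [hx₁, hx₂]; ring
      linarith
    rw [le_div_iff₀ hk0]
    calc r / (4 * M) * k = r * k / (4 * M) := by ring
      _ ≤ r * k / Real.log x₂ := div_le_div_of_nonneg_left (by positivity) hlx hlog
      _ ≤ _ := (div_le_div_of_nonneg_right hnum hlx.le).trans h7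
  -- the integral over the slices
  obtain ⟨S, hS⟩ : ∃ S : Set (ℝ × ℝ), S = {x : ℝ × ℝ | x ∈ Metric.closedBall (a, b) r ∧
      (⌊x.1 * k + x.2 * l⌋₊ + 1).Prime} := ⟨_, rfl⟩
  rw [← hS]
  have hSm : MeasurableSet S := by
    rw [hS]
    apply Metric.isClosed_closedBall.measurableSet.inter
    have hf : Measurable fun x : ℝ × ℝ => ⌊x.1 * k + x.2 * l⌋₊ :=
      Nat.measurable_floor.comp (by fun_prop)
    exact hf (MeasurableSet.of_discrete (s := {n : ℕ | (n + 1).Prime}))
  rw [Measure.volume_eq_prod, Measure.prod_apply_symm hSm]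
  calc ENNReal.ofReal (1 / 2 * r ^ 2 / M) = ∫⁻ _ in Set.Icc (b - r) (b + r), ENNReal.ofReal (r / (4 * M)) := by
        rw [setLIntegral_const, Real.volume_Icc, ← ENNReal.ofReal_mul (by positivity)]
        congr 1
        field_simp
        ring
    _ ≤ ∫⁻ y in Set.Icc (b - r) (b + r), volume ((fun x => (x, y)) ⁻¹' S) := by
        apply setLIntegral_mono' measurableSet_Icc
        intro y hy
        refine (ENNReal.ofReal_le_ofReal (key y hy)).trans ((slice k (y * l) (a - r) (a + r) hk0).trans ?_)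
        apply measure_mono
        intro α hα
        rw [hS]
        refine ⟨?_, hα.2⟩
        rw [Metric.mem_closedBall, Prod.dist_eq, max_le_iff, Real.dist_eq, Real.dist_eq, abs_le, abs_le]
        obtain ⟨⟨h4, h5⟩, -⟩ := hα
        obtain ⟨h6, h7⟩ := hy
        refine ⟨⟨by simp; linarith, by simp; linarith⟩, by simp; linarith, by simp; linarith⟩
    _ ≤ ∫⁻ y, volume ((fun x => (x, y)) ⁻¹' S) := setLIntegral_le_lintegral _ _

theorem t_ONE2 : S_ONE2 := by
  refine ⟨1 / 2, by norm_num, fun c r hc => ?_⟩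
  obtain ⟨hr, h1, h2⟩ := hc
  filter_upwards [one_aux2 c.1 c.2 r hr h1 h2, one_aux2 c.2 c.1 r hr h2 h1] with M e1 e2 A B hA hB
  have hA0 : 0 < A := lt_of_lt_of_le (by positivity) hA.1
  have hB0 : 0 < B := lt_of_lt_of_le (by positivity) hB.1
  rcases le_total B A with h | h
  · exact e1 A B hB0 h hA.1 hA.2
  · refine (e2 B A hA0 h hB.1 hB.2).trans (le_of_eq ?_)
    obtain ⟨S, hS⟩ : ∃ S : Set (ℝ × ℝ), S = {a : ℝ × ℝ | a ∈ Metric.closedBall c r ∧
      (⌊a.1 * A + a.2 * B⌋₊ + 1).Prime} := ⟨_, rfl⟩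
    have hSm : MeasurableSet S := by
      rw [hS]
      apply Metric.isClosed_closedBall.measurableSet.inter
      have hf : Measurable fun a : ℝ × ℝ => ⌊a.1 * A + a.2 * B⌋₊ :=
        Nat.measurable_floor.comp (by fun_prop)
      exact hf (MeasurableSet.of_discrete (s := {n : ℕ | (n + 1).Prime}))
    have h3 := (Measure.measurePreserving_swap (μ := (volume : Measure ℝ)) (ν := (volume : Measure ℝ))).measure_preimage
      hSm.nullMeasurableSet
    rw [← hS, Measure.volume_eq_prod, ← h3]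
    congr 1
    ext x
    rw [hS]
    simp only [Set.mem_ofPred_eq, Set.mem_preimage, Metric.mem_closedBall, Prod.dist_eq, Prod.fst_swap, Prod.snd_swap]
    rw [max_comm, add_comm (x.1 * B)]

end Pool.Agent.D0H87.GY
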